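import Mathlib

/-!
Concatenating repeated finite blocks: Cesàro averages along the resulting sequence converge to `L`
exactly when the block averages do.
-/

namespace Pool.Agent.P.MP_2957ea_an

open Filter Finset Topology

set_option linter.unusedSectionVars false

section

variable {E : Type*} [NormedAddCommGroup E] [NormedSpace ℝ E]

theorem sum_mod_eq (u : ℕ → E) (l q r : ℕ) (hr : r ≤ l) :
    ∑ t ∈ range (q * l + r), u (t % l) = q • ∑ t ∈ range l, u t + ∑ t ∈ range r, u t := by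
  have key : ∀ q r, r ≤ l → ∑ t ∈ range r, u ((q * l + t) % l) = ∑ t ∈ range r, u t := by
    intro q r hr
    refine sum_congr rfl fun t ht => ?_
    rw [Nat.mul_add_mod_self_right, Nat.mod_eq_of_lt (by have := mem_range.1 ht; omega)]
  have key2 : ∀ q, ∑ t ∈ range (q * l), u (t % l) = q • ∑ t ∈ range l, u t := by
    intro q
    induction q with
    | zero => simp
    | succ q ih => rw [Nat.succ_mul, sum_range_add, ih, key q l le_rfl, succ_nsmul]
  rw [sum_range_add, key2, key q r hr]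

theorem norm_sum_mod_le (u : ℕ → E) {C : ℝ} (hu : ∀ t, ‖u t‖ ≤ C) {l : ℕ} (hl : 0 < l) (n : ℕ) :
    ‖∑ t ∈ range n, u (t % l)‖ ≤ n * ‖(l : ℝ)⁻¹ • ∑ t ∈ range l, u t‖ + C * l := by
  have hC : 0 ≤ C := (norm_nonneg _).trans (hu 0)
  have h1 : n = n / l * l + n % l := (Nat.div_add_mod' n l).symm
  have h2 : n % l ≤ l := (Nat.mod_lt n hl).le
  have hl' : (0 : ℝ) < l := by exact_mod_cast hl
  conv_lhs => rw [h1, sum_mod_eq u l _ _ h2]
  refine (norm_add_le _ _).trans (add_le_add ?_ ?_)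
  · rw [← Nat.cast_smul_eq_nsmul ℝ, norm_smul, norm_smul, Real.norm_natCast, norm_inv,
      Real.norm_natCast, ← mul_assoc]
    gcongr
    rw [← div_eq_mul_inv]
    exact Nat.cast_div_le
  · refine (norm_sum_le _ _).trans ?_
    calc ∑ t ∈ range (n % l), ‖u t‖ ≤ ∑ t ∈ range (n % l), C := sum_le_sum fun t _ => hu t
      _ = C * (n % l : ℕ) := by simp [mul_comm]
      _ ≤ C * l := by gcongr

end

/-- Stage end points. -/
def stageEnd (l : ℕ → ℕ) : ℕ → ℕ
  | 0 => 0
  | j + 1 => stageEnd l j + ((j + 1) * (stageEnd l j + l (j + 1)) + 1) * l j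

theorem stageEnd_succ_ge (l : ℕ → ℕ) (hl : ∀ j, 0 < l j) (j : ℕ) :
    stageEnd l j + (j + 1) * (stageEnd l j + l (j + 1)) + 1 ≤ stageEnd l (j + 1) := by
  have := hl j
  rw [stageEnd]
  nlinarith [Nat.zero_le ((j + 1) * (stageEnd l j + l (j + 1)))]

theorem stageEnd_strictMono (l : ℕ → ℕ) (hl : ∀ j, 0 < l j) : StrictMono (stageEnd l) :=
  strictMono_nat_of_lt_succ fun j => by
    have := stageEnd_succ_ge l hl j
    omega

theorem exists_stage (l : ℕ → ℕ) (hl : ∀ j, 0 < l j) (n : ℕ) :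
    ∃ j, stageEnd l j ≤ n ∧ n < stageEnd l (j + 1) := by
  induction n with
  | zero => exact ⟨0, le_rfl, stageEnd_strictMono l hl (Nat.lt_succ_self 0)⟩
  | succ n ih =>
    obtain ⟨j, h1, h2⟩ := ih
    rcases Nat.lt_or_ge (n + 1) (stageEnd l (j + 1)) with h | h
    · exact ⟨j, by omega, h⟩
    · exact ⟨j + 1, h, by have := stageEnd_strictMono l hl (Nat.lt_add_one (j + 1)); omega⟩

theorem exists_concat {S : Type*} (l : ℕ → ℕ) (hl : ∀ j, 0 < l j) (β : ℕ → ℕ → S) :
    ∃ (a : ℕ → S) (st : ℕ → ℕ), Tendsto st atTop atTop ∧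
      (∀ n, stageEnd l (st n) ≤ n ∧ n < stageEnd l (st n + 1)) ∧
      (∀ n, ∃ t, t < l (st n) ∧ a n = β (st n) t) ∧
      ∀ j t, stageEnd l j + t < stageEnd l (j + 1) → a (stageEnd l j + t) = β j (t % l j) := by
  choose st hst using exists_stage l hl
  have hmono := stageEnd_strictMono l hl
  refine ⟨fun n => β (st n) ((n - stageEnd l (st n)) % l (st n)), st, ?_, hst,
    fun n => ⟨_, Nat.mod_lt _ (hl _), rfl⟩, fun j t ht => ?_⟩
  · refine tendsto_atTop_atTop.2 fun J => ⟨stageEnd l J, fun n hn => ?_⟩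
    have h1 : stageEnd l J < stageEnd l (st n + 1) := hn.trans_lt (hst n).2
    have := hmono.lt_iff_lt.1 h1
    omega
  · have h1 : st (stageEnd l j + t) = j := by
      have h2 := hst (stageEnd l j + t)
      have h3 : st (stageEnd l j + t) < j + 1 := hmono.lt_iff_lt.1 (h2.1.trans_lt ht)
      have h4 : j < st (stageEnd l j + t) + 1 :=
        hmono.lt_iff_lt.1 ((Nat.le_add_right _ _).trans_lt h2.2)
      omega
    simp only [h1, Nat.add_sub_cancel_left]

section

variable {S : Type*} {E : Type*} [NormedAddCommGroup E] [NormedSpace ℝ E]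
  {l : ℕ → ℕ} {β : ℕ → ℕ → S} {a : ℕ → S}

theorem sum_stage
    (ha : ∀ j t, stageEnd l j + t < stageEnd l (j + 1) → a (stageEnd l j + t) = β j (t % l j))
    (v : S → E) (j t : ℕ) (ht : stageEnd l j + t ≤ stageEnd l (j + 1)) :
    ∑ n ∈ range (stageEnd l j + t), v (a n) =
      ∑ n ∈ range (stageEnd l j), v (a n) + ∑ s ∈ range t, v (β j (s % l j)) := by
  rw [sum_range_add]
  congr 1
  refine sum_congr rfl fun s hs => ?_
  rw [ha j s (by have := mem_range.1 hs; omega)]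

theorem sum_stage_full (hl : ∀ j, 0 < l j)
    (ha : ∀ j t, stageEnd l j + t < stageEnd l (j + 1) → a (stageEnd l j + t) = β j (t % l j))
    (v : S → E) (j : ℕ) :
    ∑ n ∈ range (stageEnd l (j + 1)), v (a n) =
      ∑ n ∈ range (stageEnd l j), v (a n) +
        ((stageEnd l (j + 1) : ℝ) - stageEnd l j) • (l j : ℝ)⁻¹ • ∑ s ∈ range (l j), v (β j s) := by
  set R := (j + 1) * (stageEnd l j + l (j + 1)) + 1 with hR
  have h1 : stageEnd l (j + 1) = stageEnd l j + R * l j := rfl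
  have hl' : (l j : ℝ) ≠ 0 := by exact_mod_cast (hl j).ne'
  have h2 := sum_mod_eq (fun s => v (β j s)) (l j) R 0 (Nat.zero_le _)
  rw [add_zero, sum_range_zero, add_zero] at h2
  conv_lhs => rw [h1, sum_stage ha v j _ h1.ge, h2]
  congr 1
  rw [h1, smul_smul, ← Nat.cast_smul_eq_nsmul ℝ]
  congr 1
  push_cast
  field_simp
  ring

theorem norm_sum_le_mul (v : S → E) {C : ℝ} (hv : ∀ s, ‖v s‖ ≤ C) (b : ℕ → S) (n : ℕ) :
    ‖∑ m ∈ range n, v (b m)‖ ≤ C * n := by
  refine (norm_sum_le _ _).trans ?_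
  calc ∑ m ∈ range n, ‖v (b m)‖ ≤ ∑ m ∈ range n, C := sum_le_sum fun t _ => hv _
    _ = C * n := by simp [mul_comm]

theorem cesaro_zero_of_block (hl : ∀ j, 0 < l j) {st : ℕ → ℕ} (hst : Tendsto st atTop atTop)
    (hst' : ∀ n, stageEnd l (st n) ≤ n ∧ n < stageEnd l (st n + 1))
    (ha : ∀ j t, stageEnd l j + t < stageEnd l (j + 1) → a (stageEnd l j + t) = β j (t % l j))
    (v : S → E) {C : ℝ} (hv : ∀ s, ‖v s‖ ≤ C)
    (hA : Tendsto (fun j => (l j : ℝ)⁻¹ • ∑ s ∈ range (l j), v (β j s)) atTop (𝓝 0)) :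
    Tendsto (fun n : ℕ => (n : ℝ)⁻¹ • ∑ m ∈ range n, v (a m)) atTop (𝓝 0) := by
  have hC : 0 ≤ C := (norm_nonneg _).trans (hv (a 0))
  have hmono := stageEnd_strictMono l hl
  rw [NormedAddGroup.tendsto_nhds_zero] at hA ⊢
  intro ε hε
  obtain ⟨J, hJ⟩ := eventually_atTop.1 (hA (ε / 4) (by positivity))
  have key : ∀ j, J ≤ j → ‖∑ n ∈ range (stageEnd l j), v (a n)‖ ≤
      C * stageEnd l J + ε / 4 * stageEnd l j := by
    intro j hj
    induction j, hj using Nat.le_induction with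
    | base =>
      have := norm_sum_le_mul v hv a (stageEnd l J)
      have : 0 ≤ ε / 4 * stageEnd l J := by positivity
      linarith
    | succ j hj ih =>
      rw [sum_stage_full hl ha v j]
      refine (norm_add_le _ _).trans ?_
      have h1 : (stageEnd l j : ℝ) ≤ stageEnd l (j + 1) := by
        exact_mod_cast (hmono (Nat.lt_succ_self j)).le
      rw [norm_smul, Real.norm_of_nonneg (by linarith)]
      have h2 := (hJ j hj).le
      nlinarith
  have e1 : ∀ᶠ n : ℕ in atTop, C * stageEnd l J ≤ ε / 4 * n := by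
    have : Tendsto (fun n : ℕ => ε / 4 * n) atTop atTop :=
      tendsto_natCast_atTop_atTop.const_mul_atTop (by positivity)
    exact this.eventually_ge_atTop _
  have e2 : ∀ᶠ n : ℕ in atTop, C ≤ ε / 8 * st n := by
    have : Tendsto (fun n : ℕ => ε / 8 * st n) atTop atTop :=
      (tendsto_natCast_atTop_atTop.comp hst).const_mul_atTop (by positivity)
    exact this.eventually_ge_atTop _
  filter_upwards [e1, e2, hst.eventually_ge_atTop (J + 1), eventually_gt_atTop 0]
    with n h1 h2 h3 hn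
  obtain ⟨j, hj⟩ : ∃ j, st n = j + 1 := ⟨st n - 1, by omega⟩
  obtain ⟨h4, h5⟩ := hst' n
  rw [hj] at h2 h3 h4 h5
  obtain ⟨t, ht⟩ := Nat.exists_eq_add_of_le h4
  have h6 := sum_stage ha v (j + 1) t (by omega)
  rw [← ht] at h6
  have h7 := norm_sum_mod_le (fun s => v (β (j + 1) s)) (fun s => hv _) (hl (j + 1)) t
  have h8 := key (j + 1) (by omega)
  have h9 := (hJ (j + 1) (by omega)).le
  have h10 : ((j + 1 : ℕ) : ℝ) * l (j + 1) ≤ n := by
    have := stageEnd_succ_ge l hl j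
    have : (j + 1) * l (j + 1) ≤ n := by nlinarith [Nat.zero_le ((j + 1) * stageEnd l j)]
    exact_mod_cast this
  have hn' : (0 : ℝ) < n := by exact_mod_cast hn
  have ht' : (n : ℝ) = stageEnd l (j + 1) + t := by exact_mod_cast ht
  have h11 : C * l (j + 1) ≤ ε / 8 * n := by
    calc C * l (j + 1) ≤ ε / 8 * ((j + 1 : ℕ) : ℝ) * l (j + 1) := by gcongr
      _ = ε / 8 * (((j + 1 : ℕ) : ℝ) * l (j + 1)) := by ring
      _ ≤ ε / 8 * n := by gcongr
  have h12 : ‖∑ m ∈ range n, v (a m)‖ ≤ 5 * ε / 8 * n := by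
    rw [h6]
    refine (norm_add_le _ _).trans ?_
    have h13 : (t : ℝ) * ‖(l (j + 1) : ℝ)⁻¹ • ∑ s ∈ range (l (j + 1)), v (β (j + 1) s)‖ ≤
        t * (ε / 4) := by gcongr
    nlinarith
  rw [norm_smul, norm_inv, Real.norm_natCast, inv_mul_lt_iff₀ hn']
  nlinarith

theorem avg_sub_const (v : S → E) (L : E) (b : ℕ → S) {n : ℕ} (hn : 0 < n) :
    (n : ℝ)⁻¹ • ∑ m ∈ range n, (v (b m) - L) = (n : ℝ)⁻¹ • ∑ m ∈ range n, v (b m) - L := by
  have hn' : (n : ℝ) ≠ 0 := by exact_mod_cast hn.ne'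
  rw [sum_sub_distrib, smul_sub, sum_const, card_range, ← Nat.cast_smul_eq_nsmul ℝ, smul_smul,
    inv_mul_cancel₀ hn', one_smul]

theorem cesaro_of_block (hl : ∀ j, 0 < l j) {st : ℕ → ℕ} (hst : Tendsto st atTop atTop)
    (hst' : ∀ n, stageEnd l (st n) ≤ n ∧ n < stageEnd l (st n + 1))
    (ha : ∀ j t, stageEnd l j + t < stageEnd l (j + 1) → a (stageEnd l j + t) = β j (t % l j))
    (v : S → E) {C : ℝ} (hv : ∀ s, ‖v s‖ ≤ C) {L : E}
    (hA : Tendsto (fun j => (l j : ℝ)⁻¹ • ∑ s ∈ range (l j), v (β j s)) atTop (𝓝 L)) :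
    Tendsto (fun n : ℕ => (n : ℝ)⁻¹ • ∑ m ∈ range n, v (a m)) atTop (𝓝 L) := by
  have h1 := cesaro_zero_of_block hl hst hst' ha (fun s => v s - L) (C := C + ‖L‖)
    (fun s => (norm_sub_le _ _).trans (by gcongr; exact hv s)) (by
      simp only [fun j => avg_sub_const v L (β j) (hl j)]
      exact tendsto_sub_nhds_zero_iff.2 hA)
  rw [← tendsto_sub_nhds_zero_iff]
  refine h1.congr' ?_
  filter_upwards [eventually_gt_atTop 0] with n hn
  exact avg_sub_const v L a hn

theorem block_of_cesaro (hl : ∀ j, 0 < l j)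
    (ha : ∀ j t, stageEnd l j + t < stageEnd l (j + 1) → a (stageEnd l j + t) = β j (t % l j))
    (v : S → E) {C : ℝ} (hv : ∀ s, ‖v s‖ ≤ C) {L : E}
    (hA : Tendsto (fun n : ℕ => (n : ℝ)⁻¹ • ∑ m ∈ range n, v (a m)) atTop (𝓝 L)) :
    Tendsto (fun j => (l j : ℝ)⁻¹ • ∑ s ∈ range (l j), v (β j s)) atTop (𝓝 L) := by
  have hC : 0 ≤ C := (norm_nonneg _).trans (hv (a 0))
  have hmono := stageEnd_strictMono l hl
  have h1 : Tendsto (fun j => stageEnd l (j + 1)) atTop atTop :=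
    hmono.tendsto_atTop.comp (tendsto_add_atTop_nat 1)
  have h2 := hA.comp h1
  have h3 : Tendsto (fun j : ℕ => 2 * C * (1 / ((j : ℝ) + 1))) atTop (𝓝 0) := by
    simpa using (tendsto_one_div_add_atTop_nhds_zero_nat (𝕜 := ℝ)).const_mul (2 * C)
  have h4 : Tendsto (fun j => (l j : ℝ)⁻¹ • ∑ s ∈ range (l j), v (β j s) -
      (stageEnd l (j + 1) : ℝ)⁻¹ • ∑ m ∈ range (stageEnd l (j + 1)), v (a m)) atTop (𝓝 0) := by
    refine squeeze_zero_norm (fun j => ?_) h3
    set A := (l j : ℝ)⁻¹ • ∑ s ∈ range (l j), v (β j s) with hA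
    have hl' : (0 : ℝ) < l j := by exact_mod_cast hl j
    have hAn : ‖A‖ ≤ C := by
      rw [hA, norm_smul, norm_inv, Real.norm_natCast, inv_mul_le_iff₀ hl', mul_comm]
      exact norm_sum_le_mul v hv (β j) (l j)
    have h5 := stageEnd_succ_ge l hl j
    have h6 : (0 : ℝ) < stageEnd l (j + 1) := by
      have : 0 < stageEnd l (j + 1) := by omega
      exact_mod_cast this
    have h7 : ((j : ℝ) + 1) * stageEnd l j ≤ stageEnd l (j + 1) := by
      have : (j + 1) * stageEnd l j ≤ stageEnd l (j + 1) := by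
        nlinarith [Nat.zero_le ((j + 1) * l (j + 1))]
      exact_mod_cast this
    have h8 : A - (stageEnd l (j + 1) : ℝ)⁻¹ • ∑ m ∈ range (stageEnd l (j + 1)), v (a m) =
        (stageEnd l (j + 1) : ℝ)⁻¹ •
          ((stageEnd l j : ℝ) • A - ∑ m ∈ range (stageEnd l j), v (a m)) := by
      rw [sum_stage_full hl ha v j, ← hA]
      have : A = (stageEnd l (j + 1) : ℝ)⁻¹ • (stageEnd l (j + 1) : ℝ) • A := by
        rw [smul_smul, inv_mul_cancel₀ h6.ne', one_smul]
      conv_lhs => rw [this]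
      rw [← this, sub_smul]
      nth_rewrite 1 [this]
      rw [← smul_sub]
      congr 1
      abel
    rw [h8, norm_smul, norm_inv, Real.norm_natCast, inv_mul_le_iff₀ h6]
    have h9 : ‖(stageEnd l j : ℝ) • A - ∑ m ∈ range (stageEnd l j), v (a m)‖ ≤
        2 * C * stageEnd l j := by
      refine (norm_sub_le _ _).trans ?_
      rw [norm_smul, Real.norm_natCast]
      have := norm_sum_le_mul v hv a (stageEnd l j)
      have : (stageEnd l j : ℝ) * ‖A‖ ≤ stageEnd l j * C := by gcongr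
      linarith
    refine h9.trans ?_
    have h10 : (stageEnd l j : ℝ) ≤ stageEnd l (j + 1) * (1 / ((j : ℝ) + 1)) := by
      rw [mul_one_div, le_div_iff₀ (by positivity)]
      linarith
    calc 2 * C * stageEnd l j ≤ 2 * C * (stageEnd l (j + 1) * (1 / ((j : ℝ) + 1))) := by gcongr
      _ = _ := by ring
  simpa using h4.add h2

end

end Pool.Agent.P.MP_2957ea_an
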