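import Mathlib

/-!
The van der Corput lemma in an inner product space, and its application to quadratic weights.
-/

namespace Pool.Agent.P.MP_2957ea_an

open Filter Finset Topology

set_option linter.unusedSectionVars false

section

variable {H : Type*} [NormedAddCommGroup H] [InnerProductSpace ℂ H]

theorem norm_sum_sq_le (y : ℕ → H) (N : ℕ) :
    ‖∑ m ∈ range N, y m‖ ^ 2 ≤ N * ∑ m ∈ range N, ‖y m‖ ^ 2 := by
  calc ‖∑ m ∈ range N, y m‖ ^ 2 ≤ (∑ m ∈ range N, ‖y m‖) ^ 2 := by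
        gcongr; exact norm_sum_le _ _
    _ ≤ _ := by simpa using sq_sum_le_card_mul_sum_sq (s := range N) (f := fun m => ‖y m‖)

theorem norm_shift_sub_le (u : ℕ → H) {C : ℝ} (hu : ∀ m, ‖u m‖ ≤ C) (N h : ℕ) :
    ‖∑ m ∈ range N, u (m + h) - ∑ m ∈ range N, u m‖ ≤ 2 * C * h := by
  have h1 := sum_range_add u h N
  have h2 := sum_range_add u N h
  rw [add_comm N h, h1] at h2
  have h3 : ∑ m ∈ range N, u (m + h) - ∑ m ∈ range N, u m =
      ∑ x ∈ range h, u (N + x) - ∑ x ∈ range h, u x := by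
    simp only [add_comm _ h]
    rw [sub_eq_sub_iff_add_eq_add, add_comm, h2, add_comm]
  have h4 : ∀ b : ℕ → ℕ, ‖∑ x ∈ range h, u (b x)‖ ≤ C * h := fun b =>
    (norm_sum_le _ _).trans (by
      calc ∑ x ∈ range h, ‖u (b x)‖ ≤ ∑ x ∈ range h, C := sum_le_sum fun t _ => hu _
        _ = C * h := by simp [mul_comm])
  rw [h3]
  refine (norm_sub_le _ _).trans ?_
  have := h4 (fun x => N + x)
  have := h4 (fun x => x)
  linarith

theorem van_der_corput (u : ℕ → H) {C : ℝ} (hu : ∀ m, ‖u m‖ ≤ C)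
    (hc : ∀ h h' : ℕ, h ≠ h' → Tendsto (fun N : ℕ => (N : ℝ)⁻¹ •
      ∑ m ∈ range N, inner ℂ (u (m + h)) (u (m + h'))) atTop (𝓝 0)) :
    Tendsto (fun N : ℕ => (N : ℝ)⁻¹ • ∑ m ∈ range N, u m) atTop (𝓝 0) := by
  have hC : 0 ≤ C := (norm_nonneg _).trans (hu 0)
  rw [NormedAddGroup.tendsto_nhds_zero]
  intro ε hε
  obtain ⟨K, hK⟩ := exists_nat_gt (8 * C ^ 2 / ε ^ 2)
  have hK0 : (0 : ℝ) < K := lt_of_le_of_lt (by positivity) hK
  rw [div_lt_iff₀ (by positivity)] at hK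
  -- off-diagonal terms
  have e1 : Tendsto (fun N : ℕ => ∑ h ∈ range K, ∑ h' ∈ (range K).erase h, ‖(N : ℝ)⁻¹ •
      ∑ m ∈ range N, inner ℂ (u (m + h)) (u (m + h'))‖) atTop (𝓝 0) := by
    have : (0 : ℝ) = ∑ h ∈ range K, ∑ h' ∈ (range K).erase h, (0 : ℝ) := by simp
    rw [this]
    refine tendsto_finsetSum _ fun h _ => tendsto_finsetSum _ fun h' hh' => ?_
    simpa using (hc h h' (ne_of_mem_erase hh').symm).norm
  have e2 : ∀ᶠ N : ℕ in atTop, 2 * C * K ≤ ε / 4 * N := by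
    have : Tendsto (fun n : ℕ => ε / 4 * n) atTop atTop :=
      tendsto_natCast_atTop_atTop.const_mul_atTop (by positivity)
    exact this.eventually_ge_atTop _
  filter_upwards [e1.eventually (gt_mem_nhds (show (0 : ℝ) < ε ^ 2 / 8 * K ^ 2 by positivity)), e2,
    eventually_gt_atTop 0] with N h1 h2 hN
  have hN' : (0 : ℝ) < N := by exact_mod_cast hN
  set y : ℕ → H := fun m => ∑ h ∈ range K, u (m + h) with hy
  have h3 : ∑ m ∈ range N, ‖y m‖ ^ 2 ≤ N * (K * C ^ 2 + ε ^ 2 / 8 * K ^ 2) := by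
    have h4 : ((∑ m ∈ range N, ‖y m‖ ^ 2 : ℝ) : ℂ) =
        ∑ h ∈ range K, ∑ h' ∈ range K, ∑ m ∈ range N, inner ℂ (u (m + h)) (u (m + h')) := by
      have h0 : ((∑ m ∈ range N, ‖y m‖ ^ 2 : ℝ) : ℂ) = ∑ m ∈ range N, inner ℂ (y m) (y m) := by
        push_cast
        exact sum_congr rfl fun m _ => (inner_self_eq_norm_sq_to_K (𝕜 := ℂ) (y m)).symm
      rw [h0]
      simp only [hy, sum_inner]
      simp only [inner_sum]
      rw [sum_comm]
      refine sum_congr rfl fun h _ => ?_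
      rw [sum_comm]
    have h5 : ∑ m ∈ range N, ‖y m‖ ^ 2 ≤ ∑ h ∈ range K, ∑ h' ∈ range K,
        ‖∑ m ∈ range N, inner ℂ (u (m + h)) (u (m + h'))‖ := by
      calc ∑ m ∈ range N, ‖y m‖ ^ 2 ≤ ‖((∑ m ∈ range N, ‖y m‖ ^ 2 : ℝ) : ℂ)‖ := by
            rw [Complex.norm_real]; exact le_abs_self _
        _ ≤ _ := by
            rw [h4]
            exact (norm_sum_le _ _).trans (sum_le_sum fun h _ => norm_sum_le _ _)
    refine h5.trans ?_
    have h6 : ∀ h ∈ range K, ∑ h' ∈ range K,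
        ‖∑ m ∈ range N, inner ℂ (u (m + h)) (u (m + h'))‖ ≤ N * C ^ 2 +
        N * ∑ h' ∈ (range K).erase h, ‖(N : ℝ)⁻¹ •
          ∑ m ∈ range N, inner ℂ (u (m + h)) (u (m + h'))‖ := by
      intro h hh
      rw [← add_sum_erase _ _ hh]
      refine add_le_add ?_ (le_of_eq ?_)
      · refine (norm_sum_le _ _).trans ?_
        calc ∑ m ∈ range N, ‖inner ℂ (u (m + h)) (u (m + h))‖ ≤ ∑ m ∈ range N, C ^ 2 := by
              refine sum_le_sum fun m _ => (norm_inner_le_norm _ _).trans ?_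
              rw [sq]
              gcongr <;> exact hu _
          _ = N * C ^ 2 := by simp
      · rw [mul_sum]
        refine sum_congr rfl fun h' _ => ?_
        rw [norm_smul, norm_inv, Real.norm_natCast, ← mul_assoc, mul_inv_cancel₀ hN'.ne', one_mul]
    refine (sum_le_sum h6).trans ?_
    rw [sum_add_distrib, sum_const, card_range, nsmul_eq_mul, ← mul_sum]
    nlinarith
  have h7 : ‖∑ m ∈ range N, y m‖ ≤ ε / 2 * K * N := by
    refine abs_le_of_sq_le_sq' ?_ (by positivity) |>.2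
    refine (norm_sum_sq_le y N).trans ?_
    have h8 : K * C ^ 2 ≤ ε ^ 2 / 8 * K ^ 2 := by nlinarith
    calc (N : ℝ) * ∑ m ∈ range N, ‖y m‖ ^ 2 ≤ N * (N * (ε ^ 2 / 8 * K ^ 2 + ε ^ 2 / 8 * K ^ 2)) := by
          gcongr
          exact h3.trans (by gcongr)
      _ = (ε / 2 * K * N) ^ 2 := by ring
  have h9 : ‖∑ m ∈ range N, y m - (K : ℝ) • ∑ m ∈ range N, u m‖ ≤ K * (2 * C * K) := by
    have : ∑ m ∈ range N, y m - (K : ℝ) • ∑ m ∈ range N, u m =
        ∑ h ∈ range K, (∑ m ∈ range N, u (m + h) - ∑ m ∈ range N, u m) := by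
      rw [sum_sub_distrib, sum_const, card_range, Nat.cast_smul_eq_nsmul, sum_comm]
    rw [this]
    refine (norm_sum_le _ _).trans ?_
    calc ∑ h ∈ range K, ‖∑ m ∈ range N, u (m + h) - ∑ m ∈ range N, u m‖
        ≤ ∑ h ∈ range K, 2 * C * K := by
          refine sum_le_sum fun h hh => (norm_shift_sub_le u hu N h).trans ?_
          gcongr
          exact (mem_range.1 hh).le
      _ = K * (2 * C * K) := by simp
  have h10 : K * ‖∑ m ∈ range N, u m‖ ≤ K * (3 * ε / 4 * N) := by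
    have h11 : ‖(K : ℝ) • ∑ m ∈ range N, u m‖ ≤ ‖∑ m ∈ range N, y m‖ +
        ‖∑ m ∈ range N, y m - (K : ℝ) • ∑ m ∈ range N, u m‖ := by
      simpa using norm_sub_le (∑ m ∈ range N, y m)
        (∑ m ∈ range N, y m - (K : ℝ) • ∑ m ∈ range N, u m)
    rw [norm_smul, Real.norm_natCast] at h11
    have : (K : ℝ) * (2 * C * K) ≤ K * (ε / 4 * N) := by gcongr
    nlinarith
  have h12 := le_of_mul_le_mul_left h10 hK0
  rw [norm_smul, norm_inv, Real.norm_natCast, inv_mul_lt_iff₀ hN']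
  nlinarith

/-- `e(t) = exp (2 π i t)`. -/
noncomputable def ee (t : ℝ) : ℂ := Complex.exp (2 * Real.pi * t * Complex.I)

theorem norm_ee (t : ℝ) : ‖ee t‖ = 1 := by
  have : (2 * Real.pi * t * Complex.I : ℂ) = ((2 * Real.pi * t : ℝ) : ℂ) * Complex.I := by
    push_cast; ring
  rw [ee, this, Complex.norm_exp_ofReal_mul_I]

theorem ee_add (s t : ℝ) : ee (s + t) = ee s * ee t := by
  rw [ee, ee, ee, ← Complex.exp_add]; congr 1; push_cast; ring

theorem ee_nat_mul (n : ℕ) (t : ℝ) : ee (n * t) = ee t ^ n := by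
  rw [ee, ee, ← Complex.exp_nat_mul]; congr 1; push_cast; ring

theorem ee_int (n : ℤ) : ee n = 1 := by
  rw [ee, ← Complex.exp_int_mul_two_pi_mul_I n]; congr 1; push_cast; ring

theorem ee_zero : ee 0 = 1 := by simp [ee]

theorem conj_ee (t : ℝ) : (starRingEnd ℂ) (ee t) = ee (-t) := by
  rw [ee, ee, ← Complex.exp_conj]; congr 1
  simp [map_ofNat]

theorem ee_ne_one {t : ℝ} (ht : Irrational t) : ee t ≠ 1 := by
  intro h
  rw [ee, Complex.exp_eq_one_iff] at h
  obtain ⟨n, hn⟩ := h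
  have h1 : (2 * Real.pi * Complex.I : ℂ) ≠ 0 := Complex.two_pi_I_ne_zero
  have h2 : (t : ℂ) = n := by
    apply mul_left_cancel₀ h1
    rw [← mul_comm (n : ℂ), ← hn]; ring
  exact ht.ne_int n (by exact_mod_cast h2)

theorem ee_add_ee_neg (t : ℝ) : ee t + ee (-t) = 2 * (Real.cos (2 * Real.pi * t) : ℂ) := by
  rw [ee, ee, Complex.ofReal_cos, Complex.two_cos]
  congr 2 <;> push_cast <;> ring

theorem tendsto_geom_avg {z : ℂ} (hz : ‖z‖ = 1) (hz1 : z ≠ 1) (c : ℂ) :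
    Tendsto (fun N : ℕ => (N : ℝ)⁻¹ • ∑ m ∈ range N, c * z ^ m) atTop (𝓝 0) := by
  have h1 : Tendsto (fun N : ℕ => (N : ℝ)⁻¹ * (‖c‖ * (2 / ‖z - 1‖))) atTop (𝓝 0) := by
    simpa using (tendsto_inv_atTop_nhds_zero_nat (𝕜 := ℝ)).mul_const (‖c‖ * (2 / ‖z - 1‖))
  refine squeeze_zero_norm (fun N => ?_) h1
  rw [norm_smul, norm_inv, Real.norm_natCast, ← mul_sum, geom_sum_eq hz1, norm_mul, norm_div]
  gcongr
  refine (norm_sub_le _ _).trans ?_
  rw [norm_pow, hz, one_pow, norm_one]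
  norm_num

theorem tendsto_quadratic_avg (U : H →ₗᵢ[ℂ] H) (f : H) {α : ℝ} (hα : Irrational α) :
    Tendsto (fun N : ℕ => (N : ℝ)⁻¹ • ∑ m ∈ range N, ee (α * m ^ 2) • U^[m] f) atTop (𝓝 0) := by
  have hn : ∀ m (g : H), ‖U^[m] g‖ = ‖g‖ := by
    intro m g
    induction m with
    | zero => rfl
    | succ m ih => rw [Function.iterate_succ_apply', U.norm_map, ih]
  have hi : ∀ m (g g' : H), inner ℂ (U^[m] g) (U^[m] g') = inner ℂ g g' := by
    intro m g g'
    induction m with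
    | zero => rfl
    | succ m ih => rw [Function.iterate_succ_apply', Function.iterate_succ_apply',
        U.inner_map_map, ih]
  refine van_der_corput _ (C := ‖f‖) (fun m => ?_) fun h h' hh => ?_
  · rw [norm_smul, norm_ee, one_mul, hn]
  · have hirr : Irrational (α * (2 * ((h' : ℝ) - h))) := by
      have : (2 * ((h' : ℝ) - h)) = ((2 * ((h' : ℤ) - h) : ℤ) : ℝ) := by push_cast; ring
      rw [this]
      refine hα.mul_intCast ?_
      have : (h' : ℤ) ≠ h := by exact_mod_cast hh.symm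
      omega
    refine (tendsto_geom_avg (norm_ee _) (ee_ne_one hirr)
      (ee (α * ((h' : ℝ) ^ 2 - h ^ 2)) * inner ℂ (U^[h] f) (U^[h'] f))).congr fun N => ?_
    congr 1
    refine sum_congr rfl fun m _ => ?_
    rw [inner_smul_left, inner_smul_right, Function.iterate_add_apply, Function.iterate_add_apply,
      hi, conj_ee, ← ee_nat_mul, mul_right_comm, ← ee_add, ← mul_assoc (ee _) (ee _), ← ee_add]
    congr 2
    push_cast
    ring

end

end Pool.Agent.P.MP_2957ea_an
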