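import Mathlib
import Pool.Agent.P.MP_2957ea_an.Concat
import Pool.Agent.P.MP_2957ea_an.VdC

/-!
The blocks: the integer `j + 1 + t` (`t ≤ j`) is repeated about
`(j + 1) * (1 + (-1) ^ j * cos (2 π α (j + 1 + t) ^ 2))` times.
-/

namespace Pool.Agent.P.MP_2957ea_an

open Filter Finset Topology

set_option linter.unusedSectionVars false

/-- The cosine weight. -/
noncomputable def cw (α : ℝ) (m : ℕ) : ℝ := Real.cos (2 * Real.pi * (α * m ^ 2))

/-- The multiplicity of `j + 1 + t` in block `j`. -/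
noncomputable def mult (α : ℝ) (j t : ℕ) : ℕ :=
  ⌊((j : ℝ) + 1) * (1 + (-1) ^ j * cw α (j + 1 + t))⌋₊ + 1

/-- The total multiplicity in block `j`. -/
noncomputable def tot (α : ℝ) (j : ℕ) : ℕ := ∑ t ∈ range (j + 1), mult α j t

theorem tot_pos (α : ℝ) (j : ℕ) : 0 < tot α j :=
  sum_pos (fun _ _ => Nat.succ_pos _) ⟨0, by simp⟩

theorem abs_cw_le (α : ℝ) (m : ℕ) : |cw α m| ≤ 1 := Real.abs_cos_le_one _

theorem abs_mult_sub_le (α : ℝ) (j t : ℕ) :
    |(mult α j t : ℝ) - ((j : ℝ) + 1) * (1 + (-1) ^ j * cw α (j + 1 + t))| ≤ 1 := by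
  have h0 : |(-1 : ℝ) ^ j * cw α (j + 1 + t)| ≤ 1 := by
    rw [abs_mul, abs_pow, abs_neg, abs_one, one_pow, one_mul]; exact abs_cw_le _ _
  have h1 : 0 ≤ ((j : ℝ) + 1) * (1 + (-1) ^ j * cw α (j + 1 + t)) :=
    mul_nonneg (by positivity) (by linarith [(abs_le.1 h0).1])
  have h2 := Nat.floor_le h1
  have h3 := Nat.lt_floor_add_one (((j : ℝ) + 1) * (1 + (-1) ^ j * cw α (j + 1 + t)))
  rw [mult, abs_le]
  push_cast
  constructor <;> linarith

section

variable {E : Type*} [NormedAddCommGroup E] [NormedSpace ℝ E]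

theorem tendsto_shift_avg {w : ℕ → E} {L : E}
    (h : Tendsto (fun N : ℕ => (N : ℝ)⁻¹ • ∑ m ∈ range N, w m) atTop (𝓝 L)) :
    Tendsto (fun j : ℕ => ((j : ℝ) + 1)⁻¹ • ∑ t ∈ range (j + 1), w (j + 1 + t)) atTop (𝓝 L) := by
  have h1 := h.comp (tendsto_add_atTop_nat 1)
  have h2 : Tendsto (fun j : ℕ => (j + 1) + (j + 1)) atTop atTop :=
    tendsto_atTop_mono (fun j => by simp only [id]; omega) tendsto_id
  have h3 := ((h.comp h2).const_smul (2 : ℝ)).sub h1
  have h4 : (2 : ℝ) • L - L = L := by rw [two_smul]; abel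
  rw [h4] at h3
  refine h3.congr fun j => ?_
  simp only [Function.comp]
  rw [sum_range_add, smul_smul]
  have h5 : (2 : ℝ) * (((j + 1 + (j + 1) : ℕ) : ℝ))⁻¹ = ((j : ℝ) + 1)⁻¹ := by
    push_cast
    field_simp
    ring
  rw [h5, smul_add]
  push_cast
  abel

theorem tendsto_weighted_aux (α : ℝ) {w : ℕ → E} {C : ℝ} (hw : ∀ m, ‖w m‖ ≤ C) {L L' : E}
    (h1 : Tendsto (fun N : ℕ => (N : ℝ)⁻¹ • ∑ m ∈ range N, w m) atTop (𝓝 L))
    (h2 : Tendsto (fun N : ℕ => (N : ℝ)⁻¹ • ∑ m ∈ range N, cw α m • w m) atTop (𝓝 L')) :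
    Tendsto (fun j : ℕ => (((j : ℝ) + 1) ^ 2)⁻¹ • ∑ t ∈ range (j + 1),
      (mult α j t : ℝ) • w (j + 1 + t) - (L + (-1 : ℝ) ^ j • L')) atTop (𝓝 0) := by
  have hC : 0 ≤ C := (norm_nonneg _).trans (hw 0)
  have h3 := tendsto_sub_nhds_zero_iff.2 (tendsto_shift_avg h1)
  have h4 := tendsto_sub_nhds_zero_iff.2 (tendsto_shift_avg h2)
  have h5 : Tendsto (fun j : ℕ => (-1 : ℝ) ^ j • (((j : ℝ) + 1)⁻¹ • ∑ t ∈ range (j + 1),
      cw α (j + 1 + t) • w (j + 1 + t) - L')) atTop (𝓝 0) := by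
    rw [tendsto_zero_iff_norm_tendsto_zero] at h4 ⊢
    refine h4.congr fun j => ?_
    rw [norm_smul, norm_pow, norm_neg, norm_one, one_pow, one_mul]
  have h6 : Tendsto (fun j : ℕ => (((j : ℝ) + 1) ^ 2)⁻¹ • ∑ t ∈ range (j + 1),
      ((mult α j t : ℝ) - ((j : ℝ) + 1) * (1 + (-1) ^ j * cw α (j + 1 + t))) • w (j + 1 + t))
      atTop (𝓝 0) := by
    have h7 : Tendsto (fun j : ℕ => C * (1 / ((j : ℝ) + 1))) atTop (𝓝 0) := by
      simpa using (tendsto_one_div_add_atTop_nhds_zero_nat (𝕜 := ℝ)).const_mul C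
    refine squeeze_zero_norm (fun j => ?_) h7
    have hj : (0 : ℝ) < (j : ℝ) + 1 := by positivity
    rw [norm_smul, norm_inv, Real.norm_of_nonneg (by positivity), inv_mul_le_iff₀ (by positivity)]
    refine (norm_sum_le _ _).trans ?_
    calc _ ≤ ∑ t ∈ range (j + 1), C := by
          refine sum_le_sum fun t _ => ?_
          rw [norm_smul, Real.norm_eq_abs]
          calc _ ≤ 1 * C := by
                gcongr
                · exact abs_mult_sub_le α j t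
                · exact hw _
            _ = C := one_mul _
      _ = _ := by
          rw [sum_const, card_range, nsmul_eq_mul]
          push_cast
          field_simp
  have h8 := (h3.add h5).add h6
  rw [add_zero, add_zero] at h8
  refine h8.congr fun j => ?_
  have hj : ((j : ℝ) + 1) ≠ 0 := by positivity
  have h9 : ∑ t ∈ range (j + 1),
      ((mult α j t : ℝ) - ((j : ℝ) + 1) * (1 + (-1) ^ j * cw α (j + 1 + t))) • w (j + 1 + t) =
      ∑ t ∈ range (j + 1), (mult α j t : ℝ) • w (j + 1 + t) -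
        ((j : ℝ) + 1) • (∑ t ∈ range (j + 1), w (j + 1 + t) +
          (-1 : ℝ) ^ j • ∑ t ∈ range (j + 1), cw α (j + 1 + t) • w (j + 1 + t)) := by
    rw [smul_sum, ← sum_add_distrib, smul_sum, ← sum_sub_distrib]
    refine sum_congr rfl fun t _ => ?_
    module
  rw [h9, smul_sub (((j : ℝ) + 1) ^ 2)⁻¹, smul_smul]
  have h10 : (((j : ℝ) + 1) ^ 2)⁻¹ * ((j : ℝ) + 1) = ((j : ℝ) + 1)⁻¹ := by field_simp
  rw [h10]
  module

end

theorem cw_eq (α : ℝ) (m : ℕ) : (cw α m : ℂ) = (ee (α * m ^ 2) + ee (-α * m ^ 2)) / 2 := by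
  rw [neg_mul, ee_add_ee_neg, cw]; ring

theorem tendsto_cw_avg {H : Type*} [NormedAddCommGroup H] [InnerProductSpace ℂ H]
    [NormedSpace ℝ H] [IsScalarTower ℝ ℂ H]
    (hs : ∀ (r : ℝ) (x : H), r • x = (r : ℂ) • x)
    (U : H →ₗᵢ[ℂ] H) (f : H) {α : ℝ} (hα : Irrational α) :
    Tendsto (fun N : ℕ => (N : ℝ)⁻¹ • ∑ m ∈ range N, cw α m • U^[m] f) atTop (𝓝 0) := by
  have h1 := tendsto_quadratic_avg U f hα
  have h2 := tendsto_quadratic_avg U f hα.neg
  have h3 := (h1.add h2).const_smul (2⁻¹ : ℂ)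
  rw [add_zero, smul_zero] at h3
  refine h3.congr fun N => ?_
  simp only [hs, cw_eq, ← Complex.coe_smul]
  rw [← smul_add, ← sum_add_distrib, smul_comm, smul_sum]
  congr 1
  refine sum_congr rfl fun m _ => ?_
  module

theorem tendsto_ee_avg {α : ℝ} (hα : Irrational α) :
    Tendsto (fun N : ℕ => (N : ℝ)⁻¹ • ∑ m ∈ range N, ee (α * m ^ 2)) atTop (𝓝 0) := by
  simpa using tendsto_quadratic_avg (LinearIsometry.id : ℂ →ₗᵢ[ℂ] ℂ) 1 hα

theorem tendsto_tot {α : ℝ} (hα : Irrational α) :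
    Tendsto (fun j : ℕ => (((j : ℝ) + 1) ^ 2)⁻¹ * (tot α j : ℝ)) atTop (𝓝 1) := by
  have h1 : Tendsto (fun N : ℕ => (N : ℝ)⁻¹ • ∑ m ∈ range N, (1 : ℂ)) atTop (𝓝 1) := by
    refine tendsto_const_nhds.congr' ?_
    filter_upwards [eventually_gt_atTop 0] with N hN
    have : (N : ℂ) ≠ 0 := by exact_mod_cast hN.ne'
    simp [this]
  have h2 : Tendsto (fun N : ℕ => (N : ℝ)⁻¹ • ∑ m ∈ range N, cw α m • (1 : ℂ)) atTop (𝓝 0) := by
    simpa using tendsto_cw_avg (fun r x => (Complex.coe_smul r x).symm)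
      (LinearIsometry.id : ℂ →ₗᵢ[ℂ] ℂ) 1 hα
  have h3 := tendsto_weighted_aux α (w := fun _ => (1 : ℂ)) (C := 1) (fun _ => by simp) h1 h2
  simp only [smul_zero, add_zero] at h3
  have h4 := (Complex.continuous_re.tendsto _).comp (tendsto_sub_nhds_zero_iff.1 h3)
  rw [Complex.one_re] at h4
  refine h4.congr fun j => ?_
  simp only [Function.comp, Complex.smul_re, Complex.re_sum, Complex.one_re, smul_eq_mul, mul_one,
    tot]
  push_cast
  rfl

theorem tendsto_weighted {E : Type*} [NormedAddCommGroup E] [NormedSpace ℝ E] {α : ℝ}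
    (hα : Irrational α) {w : ℕ → E} {C : ℝ} (hw : ∀ m, ‖w m‖ ≤ C) {L L' : E}
    (h1 : Tendsto (fun N : ℕ => (N : ℝ)⁻¹ • ∑ m ∈ range N, w m) atTop (𝓝 L))
    (h2 : Tendsto (fun N : ℕ => (N : ℝ)⁻¹ • ∑ m ∈ range N, cw α m • w m) atTop (𝓝 L')) :
    Tendsto (fun j : ℕ => (tot α j : ℝ)⁻¹ • ∑ t ∈ range (j + 1),
      (mult α j t : ℝ) • w (j + 1 + t) - (L + (-1 : ℝ) ^ j • L')) atTop (𝓝 0) := by
  have h3 := tendsto_weighted_aux α hw h1 h2
  have h4 := (tendsto_tot hα).inv₀ one_ne_zero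
  rw [inv_one] at h4
  have h5 := h4.smul h3
  rw [smul_zero] at h5
  have h6 : Tendsto (fun j : ℕ => (((((j : ℝ) + 1) ^ 2)⁻¹ * (tot α j : ℝ))⁻¹ - 1) •
      (L + (-1 : ℝ) ^ j • L')) atTop (𝓝 0) := by
    have h7 := (tendsto_sub_nhds_zero_iff.2 h4).norm.mul_const (‖L‖ + ‖L'‖)
    rw [norm_zero, zero_mul] at h7
    refine squeeze_zero_norm (fun j => ?_) h7
    rw [norm_smul]
    gcongr
    refine (norm_add_le _ _).trans ?_
    rw [norm_smul, norm_pow, norm_neg, norm_one, one_pow, one_mul]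
  have h8 := h5.add h6
  rw [add_zero] at h8
  refine h8.congr fun j => ?_
  have hj : ((j : ℝ) + 1) ≠ 0 := by positivity
  have ht : (tot α j : ℝ) ≠ 0 := by exact_mod_cast (tot_pos α j).ne'
  have h9 : ((((j : ℝ) + 1) ^ 2)⁻¹ * (tot α j : ℝ))⁻¹ * (((j : ℝ) + 1) ^ 2)⁻¹ = (tot α j : ℝ)⁻¹ := by
    field_simp
  rw [smul_sub, smul_smul, h9]
  module

/-- An enumeration of the values of `g` on the finite set `Λ`, with multiplicity. -/
noncomputable def enum {ι S : Type*} [Inhabited S] (Λ : Finset ι) (g : ι → S) (s : ℕ) : S :=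
  if h : s < Λ.card then g (Λ.equivFin.symm ⟨s, h⟩) else default

theorem enum_mem {ι S : Type*} [Inhabited S] (Λ : Finset ι) (g : ι → S) {s : ℕ}
    (hs : s < Λ.card) : ∃ i ∈ Λ, enum Λ g s = g i :=
  ⟨_, (Λ.equivFin.symm ⟨s, hs⟩).2, by simp [enum, hs]⟩

theorem sum_enum {ι S E : Type*} [Inhabited S] [AddCommMonoid E] (Λ : Finset ι) (g : ι → S)
    (v : S → E) : ∑ s ∈ range Λ.card, v (enum Λ g s) = ∑ i ∈ Λ, v (g i) := by
  rw [sum_range, ← sum_coe_sort Λ, ← Equiv.sum_comp Λ.equivFin.symm]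
  refine sum_congr rfl fun s _ => ?_
  simp [enum]

/-- The index set of block `j`. -/
noncomputable def blockSet (α : ℝ) (j : ℕ) : Finset ((Σ _ : ℕ, ℕ) × ℕ) :=
  ((range (j + 1)).sigma fun t => range (mult α j t)) ×ˢ range (j + 1)

/-- The pair of exponents attached to an index of block `j`. -/
def blockVal (j : ℕ) (i : (Σ _ : ℕ, ℕ) × ℕ) : ℕ × ℕ := (j + 1 + i.1.1, j + 1 + i.2)

theorem card_blockSet (α : ℝ) (j : ℕ) : (blockSet α j).card = tot α j * (j + 1) := by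
  simp [blockSet, tot]

theorem sum_blockSet {E : Type*} [AddCommGroup E] [Module ℝ E] (α : ℝ) (j : ℕ) (v : ℕ × ℕ → E) :
    ∑ i ∈ blockSet α j, v (blockVal j i) = ∑ t ∈ range (j + 1), ∑ t' ∈ range (j + 1),
      (mult α j t : ℝ) • v (j + 1 + t, j + 1 + t') := by
  rw [blockSet, sum_product, sum_sigma]
  refine sum_congr rfl fun t _ => ?_
  simp only [blockVal, sum_const, card_range, ← smul_sum, Nat.cast_smul_eq_nsmul]

/-- The block average. -/
noncomputable def blockAvg {E : Type*} [AddCommGroup E] [Module ℝ E] (α : ℝ) (v : ℕ × ℕ → E)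
    (j : ℕ) : E :=
  ((tot α j : ℝ) * ((j : ℝ) + 1))⁻¹ • ∑ t ∈ range (j + 1), ∑ t' ∈ range (j + 1),
      (mult α j t : ℝ) • v (j + 1 + t, j + 1 + t')

theorem exists_sequence (α : ℝ) : ∃ a : ℕ → ℕ × ℕ,
    Tendsto (fun n => (a n).1) atTop atTop ∧ Tendsto (fun n => (a n).2) atTop atTop ∧
    ∃ (st : ℕ → ℕ), Tendsto st atTop atTop ∧
      (∀ n, stageEnd (fun j => (blockSet α j).card) (st n) ≤ n ∧
        n < stageEnd (fun j => (blockSet α j).card) (st n + 1)) ∧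
      ∀ j t, stageEnd (fun j => (blockSet α j).card) j + t <
        stageEnd (fun j => (blockSet α j).card) (j + 1) →
        a (stageEnd (fun j => (blockSet α j).card) j + t) =
          enum (blockSet α j) (blockVal j) (t % (blockSet α j).card) := by
  have hl : ∀ j, 0 < (blockSet α j).card := fun j => by
    rw [card_blockSet]; exact Nat.mul_pos (tot_pos α j) (Nat.succ_pos j)
  obtain ⟨a, st, h1, h2, h3, h4⟩ := exists_concat (fun j => (blockSet α j).card) hl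
    (fun j => enum (blockSet α j) (blockVal j))
  refine ⟨a, ?_, ?_, st, h1, h2, h4⟩
  · refine tendsto_atTop_mono (fun n => ?_) h1
    obtain ⟨t, ht, h⟩ := h3 n
    obtain ⟨i, -, hi⟩ := enum_mem (blockSet α (st n)) (blockVal (st n)) ht
    rw [h, hi, blockVal]
    simp only
    omega
  · refine tendsto_atTop_mono (fun n => ?_) h1
    obtain ⟨t, ht, h⟩ := h3 n
    obtain ⟨i, -, hi⟩ := enum_mem (blockSet α (st n)) (blockVal (st n)) ht
    rw [h, hi, blockVal]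
    simp only
    omega

theorem cesaro_iff_blockAvg {α : ℝ} {a : ℕ → ℕ × ℕ} {st : ℕ → ℕ} (h1 : Tendsto st atTop atTop)
    (h2 : ∀ n, stageEnd (fun j => (blockSet α j).card) (st n) ≤ n ∧
        n < stageEnd (fun j => (blockSet α j).card) (st n + 1))
    (h3 : ∀ j t, stageEnd (fun j => (blockSet α j).card) j + t <
        stageEnd (fun j => (blockSet α j).card) (j + 1) →
        a (stageEnd (fun j => (blockSet α j).card) j + t) =
          enum (blockSet α j) (blockVal j) (t % (blockSet α j).card))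
    {E : Type*} [NormedAddCommGroup E] [NormedSpace ℝ E] (v : ℕ × ℕ → E) {C : ℝ}
    (hv : ∀ s, ‖v s‖ ≤ C) (L : E) :
    Tendsto (fun n : ℕ => (n : ℝ)⁻¹ • ∑ m ∈ range n, v (a m)) atTop (𝓝 L) ↔
      Tendsto (blockAvg α v) atTop (𝓝 L) := by
  have hl : ∀ j, 0 < (blockSet α j).card := fun j => by
    rw [card_blockSet]; exact Nat.mul_pos (tot_pos α j) (Nat.succ_pos j)
  have he : blockAvg α v = fun j => (((blockSet α j).card : ℕ) : ℝ)⁻¹ •
      ∑ s ∈ range (blockSet α j).card, v (enum (blockSet α j) (blockVal j) s) := by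
    funext j
    rw [sum_enum, sum_blockSet, card_blockSet, blockAvg]
    push_cast
    rfl
  rw [he]
  exact ⟨block_of_cesaro hl (β := fun j => enum (blockSet α j) (blockVal j)) h3 v hv,
    cesaro_of_block hl (β := fun j => enum (blockSet α j) (blockVal j)) h1 h2 h3 v hv⟩

theorem not_tendsto_blockAvg_ee {α : ℝ} (hα : Irrational α) (L : ℂ) :
    ¬ Tendsto (blockAvg α fun s : ℕ × ℕ => ee (α * s.1 ^ 2)) atTop (𝓝 L) := by
  intro h
  have h2α : Irrational (2 * α) := by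
    have := hα.natCast_mul (m := 2) two_ne_zero
    exact_mod_cast this
  have h1 : Tendsto (fun N : ℕ => (N : ℝ)⁻¹ • ∑ m ∈ range N, cw α m • ee (α * m ^ 2)) atTop
      (𝓝 (2⁻¹ : ℂ)) := by
    have h3 := ((tendsto_ee_avg h2α).const_mul (2⁻¹ : ℂ)).add_const (2⁻¹ : ℂ)
    rw [mul_zero, zero_add] at h3
    refine h3.congr' ?_
    filter_upwards [eventually_gt_atTop 0] with N hN
    have hN' : (N : ℂ) ≠ 0 := by exact_mod_cast hN.ne'
    have h4 : ∀ m : ℕ, cw α m • ee (α * m ^ 2) = 2⁻¹ * ee (2 * α * m ^ 2) + 2⁻¹ := by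
      intro m
      rw [Complex.real_smul, cw_eq, add_div, add_mul, div_mul_eq_mul_div, div_mul_eq_mul_div,
        ← ee_add, ← ee_add, show -α * (m : ℝ) ^ 2 + α * (m : ℝ) ^ 2 = 0 by ring, ee_zero,
        show α * (m : ℝ) ^ 2 + α * (m : ℝ) ^ 2 = 2 * α * (m : ℝ) ^ 2 by ring]
      ring
    simp only [h4, sum_add_distrib, ← mul_sum, sum_const, card_range, nsmul_eq_mul,
      Complex.real_smul]
    push_cast
    field_simp
  have h5 := tendsto_weighted hα (w := fun m : ℕ => ee (α * m ^ 2)) (C := 1)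
    (fun m => (norm_ee _).le) (tendsto_ee_avg hα) h1
  have h6 : ∀ j, blockAvg α (fun s : ℕ × ℕ => ee (α * s.1 ^ 2)) j = (tot α j : ℝ)⁻¹ •
      ∑ t ∈ range (j + 1), (mult α j t : ℝ) • ee (α * ((j + 1 + t : ℕ) : ℝ) ^ 2) := by
    intro j
    have hj : ((j : ℝ) + 1) ≠ 0 := by positivity
    simp only [blockAvg, sum_const, card_range, ← Nat.cast_smul_eq_nsmul ℝ, ← smul_sum, smul_smul]
    rw [← sum_congr rfl fun t _ => (smul_smul _ _ _), ← smul_sum, smul_smul]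
    congr 1
    push_cast
    field_simp
  have h7 : Tendsto (fun j : ℕ => (0 : ℂ) + (-1 : ℝ) ^ j • (2⁻¹ : ℂ)) atTop (𝓝 L) := by
    have := h.sub h5
    rw [sub_zero] at this
    refine this.congr fun j => ?_
    rw [h6]
    ring
  have h8 := (h7.comp (tendsto_add_atTop_nat 1)).add h7
  have h9 := ((h7.comp (tendsto_add_atTop_nat 1)).sub h7).norm
  have h10 : ∀ j : ℕ, ‖((fun j : ℕ => (0 : ℂ) + (-1 : ℝ) ^ j • (2⁻¹ : ℂ)) ∘ fun a => a + 1) j -
      ((0 : ℂ) + (-1 : ℝ) ^ j • (2⁻¹ : ℂ))‖ = 1 := by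
    intro j
    simp only [Function.comp, zero_add, ← sub_smul, norm_smul, pow_succ]
    rw [show (-1 : ℝ) ^ j * -1 - (-1) ^ j = (-1) ^ j * (-2) by ring]
    simp
  simp only [h10, sub_self, norm_zero] at h9
  exact one_ne_zero (tendsto_nhds_unique tendsto_const_nhds h9)

end Pool.Agent.P.MP_2957ea_an
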