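import Mathlib

/-!
Definitions for the statement.
-/

namespace Pool.Agent.P.MP_2957ea_an

open Filter Topology MeasureTheory

universe u

/-- Condition (i): the sequences `a 0, …, a (l - 1)` are good for `l`-convergence of commuting
transformations. -/
def GoodForCommuting (l : ℕ) (a : Fin l → ℕ → ℤ) : Prop :=
  ∀ (X : Type u) [MeasurableSpace X] (μ : Measure X) [IsProbabilityMeasure μ]
    (T : Fin l → Equiv.Perm X), (∀ i, MeasurePreserving (T i) μ μ) →
    (∀ i, MeasurePreserving (T i).symm μ μ) → (∀ i j, Commute (T i) (T j)) →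
    ∀ f : Fin l → X → ℂ, (∀ i, MemLp (f i) ⊤ μ) →
      ∃ g : X → ℂ, MemLp g 2 μ ∧ Tendsto (fun N : ℕ => eLpNorm
        (fun x => (N : ℂ)⁻¹ * ∑ n ∈ Finset.Icc 1 N, ∏ i, f i ((T i ^ a i n) x) - g x) 2 μ)
        atTop (𝓝 0)

/-- A basic `k`-step nilsequence in `l` variables of the most restrictive kind: the nilpotent Lie
group is connected and simply connected, the elements `b i` commute and `F` is continuous. -/
def IsContinuousBasicNilsequence (k l : ℕ) (ψ : (Fin l → ℤ) → ℂ) : Prop :=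
  ∃ (d : ℕ) (G : Type) (_ : Group G) (_ : TopologicalSpace G) (_ : T2Space G)
    (_ : SecondCountableTopology G) (_ : SimplyConnectedSpace G) (_ : ChartedSpace (Fin d → ℝ) G)
    (_ : LieGroup (modelWithCornersSelf ℝ (Fin d → ℝ)) ⊤ G)
    (Γ : Subgroup G) (b : Fin l → G) (x : G ⧸ Γ) (F : G ⧸ Γ → ℂ),
    (⊤ : Subgroup G).lowerCentralSeries k = ⊥ ∧ DiscreteTopology Γ ∧ CompactSpace (G ⧸ Γ) ∧
    (∀ i j, Commute (b i) (b j)) ∧ Continuous F ∧
    ∀ n : Fin l → ℤ, ψ n = F ((List.ofFn fun i => b i ^ n i).prod • x)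

end Pool.Agent.P.MP_2957ea_an
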