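import Mathlib
import Pool.Agent.P.MP_2957ea_an.Blocks

/-!
Convergence in `L²` of the block averages of `f₁ ∘ T₁ ^ m * f₂ ∘ T₂ ^ m'`.
-/

namespace Pool.Agent.P.MP_2957ea_an

open Filter Finset Topology MeasureTheory

set_option linter.unusedSectionVars false

variable {X : Type*} [MeasurableSpace X] {μ : Measure X} [IsProbabilityMeasure μ]

theorem tendsto_prod {F G W : ℕ → Lp ℂ 2 μ} {C₁ C₂ : ℝ}
    (hW : ∀ j, ∀ᵐ x ∂μ, W j x = F j x * G j x) (hF : ∀ j, ∀ᵐ x ∂μ, ‖F j x‖ ≤ C₁)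
    (hG : ∀ j, ∀ᵐ x ∂μ, ‖G j x‖ ≤ C₂) {F₀ G₀ : Lp ℂ 2 μ} (hF₀ : Tendsto F atTop (𝓝 F₀))
    (hG₀ : Tendsto G atTop (𝓝 G₀)) : ∃ L, Tendsto W atTop (𝓝 L) := by
  have key : ∀ j k, ‖W j - W k‖ ≤ C₁ * ‖G j - G k‖ + C₂ * ‖F j - F k‖ := by
    intro j k
    have hA : MemLp (fun x => F j x * (G j - G k) x) 2 μ := by
      refine MemLp.of_le_mul (c := C₁) (Lp.memLp (G j - G k))
        ((Lp.aestronglyMeasurable _).mul (Lp.aestronglyMeasurable _)) ?_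
      filter_upwards [hF j] with x hx
      rw [norm_mul]
      gcongr
    have h1 : ‖hA.toLp _‖ ≤ C₁ * ‖G j - G k‖ := by
      refine Lp.norm_le_mul_norm_of_ae_le_mul ?_
      filter_upwards [hF j, hA.coeFn_toLp] with x hx hx'
      rw [hx', norm_mul]
      gcongr
    have h2 : ‖W j - W k - hA.toLp _‖ ≤ C₂ * ‖F j - F k‖ := by
      refine Lp.norm_le_mul_norm_of_ae_le_mul ?_
      filter_upwards [hG k, hA.coeFn_toLp, Lp.coeFn_sub (W j - W k) (hA.toLp _),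
        Lp.coeFn_sub (W j) (W k), Lp.coeFn_sub (F j) (F k), Lp.coeFn_sub (G j) (G k), hW j, hW k]
        with x h1 h2 h3 h4 h5 h6 h7 h8
      rw [h3, Pi.sub_apply, h4, Pi.sub_apply, h2, h5, h6, Pi.sub_apply, Pi.sub_apply, h7, h8,
        show F j x * G j x - F k x * G k x - F j x * (G j x - G k x) = G k x * (F j x - F k x) by
          ring, norm_mul]
      gcongr
    calc ‖W j - W k‖ = ‖hA.toLp _ + (W j - W k - hA.toLp _)‖ := by congr 1; abel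
      _ ≤ _ := (norm_add_le _ _).trans (add_le_add h1 h2)
  refine cauchySeq_tendsto_of_complete ?_
  rw [cauchySeq_iff_tendsto_dist_atTop_0]
  have h1 := cauchySeq_iff_tendsto_dist_atTop_0.1 hF₀.cauchySeq
  have h2 := cauchySeq_iff_tendsto_dist_atTop_0.1 hG₀.cauchySeq
  have h3 := (h2.const_mul C₁).add (h1.const_mul C₂)
  rw [mul_zero, mul_zero, add_zero] at h3
  refine squeeze_zero (fun _ => dist_nonneg) (fun n => ?_) h3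
  simp only [dist_eq_norm]
  exact key _ _

theorem coeFn_iterate {T : X → X} (hT : MeasurePreserving T μ μ) (F : Lp ℂ 2 μ) {f : X → ℂ}
    (hf : ∀ᵐ x ∂μ, F x = f x) (m : ℕ) :
    ∀ᵐ x ∂μ, ((Lp.compMeasurePreservingₗᵢ ℂ T hT)^[m] F) x = f (T^[m] x) := by
  induction m with
  | zero => exact hf
  | succ m ih =>
    rw [Function.iterate_succ_apply']
    have h1 := Lp.coeFn_compMeasurePreserving ((Lp.compMeasurePreservingₗᵢ ℂ T hT)^[m] F) hT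
    have h2 := hT.quasiMeasurePreserving.ae ih
    filter_upwards [h1, h2] with x hx hx'
    rw [Function.iterate_succ_apply, ← hx']
    exact hx

theorem real_smul_Lp (r : ℝ) (F : Lp ℂ 2 μ) : r • F = (r : ℂ) • F := by
  refine Lp.ext ?_
  filter_upwards [Lp.coeFn_smul r F, Lp.coeFn_smul (r : ℂ) F] with x h1 h2
  rw [h1, h2]
  simp

theorem exists_mean_limit (U : Lp ℂ 2 μ →ₗᵢ[ℂ] Lp ℂ 2 μ) (F : Lp ℂ 2 μ) :
    ∃ L, Tendsto (fun N : ℕ => (N : ℝ)⁻¹ • ∑ m ∈ range N, U^[m] F) atTop (𝓝 L) := by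
  have h := U.toContinuousLinearMap.tendsto_birkhoffAverage_orthogonalProjection
    U.norm_toContinuousLinearMap_le F
  refine ⟨_, h.congr fun N => ?_⟩
  rw [real_smul_Lp, birkhoffAverage, birkhoffSum]
  push_cast
  rfl

theorem norm_iterate (U : Lp ℂ 2 μ →ₗᵢ[ℂ] Lp ℂ 2 μ) (F : Lp ℂ 2 μ) (m : ℕ) : ‖U^[m] F‖ = ‖F‖ := by
  induction m with
  | zero => rfl
  | succ m ih => rw [Function.iterate_succ_apply', U.norm_map, ih]

theorem coeFn_weighted (c : ℝ) (s : Finset ℕ) (r : ℕ → ℝ) (F : ℕ → Lp ℂ 2 μ) (f : ℕ → X → ℂ)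
    (hf : ∀ t, ∀ᵐ x ∂μ, F t x = f t x) :
    ∀ᵐ x ∂μ, (c • ∑ t ∈ s, r t • F t) x = c * ∑ t ∈ s, r t * f t x := by
  have h1 : ∀ᵐ x ∂μ, ∀ t, (r t • F t) x = r t * f t x := by
    rw [ae_all_iff]
    intro t
    filter_upwards [Lp.coeFn_smul (r t) (F t), hf t] with x h1 h2
    rw [h1, Pi.smul_apply, h2, Complex.real_smul]
  filter_upwards [Lp.coeFn_smul c (∑ t ∈ s, r t • F t), Lp.coeFn_finsetSum s fun t => r t • F t, h1]
    with x h2 h3 h4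
  rw [h2, Pi.smul_apply, h3, Finset.sum_apply, Complex.real_smul]
  simp only [h4]

theorem exists_blockAvg_limit {α : ℝ} (hα : Irrational α) {T₁ T₂ : X → X}
    (hT₁ : MeasurePreserving T₁ μ μ) (hT₂ : MeasurePreserving T₂ μ μ) {f₁ f₂ : X → ℂ}
    (hf₁ : MemLp f₁ ⊤ μ) (hf₂ : MemLp f₂ ⊤ μ) :
    ∃ (v : ℕ × ℕ → Lp ℂ 2 μ) (C : ℝ) (L : Lp ℂ 2 μ),
      (∀ s, ∀ᵐ x ∂μ, v s x = f₁ (T₁^[s.1] x) * f₂ (T₂^[s.2] x)) ∧ (∀ s, ‖v s‖ ≤ C) ∧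
      Tendsto (blockAvg α v) atTop (𝓝 L) := by
  have hb : ∀ {f : X → ℂ}, MemLp f ⊤ μ → ∃ C : ℝ, 0 ≤ C ∧ ∀ᵐ x ∂μ, ‖f x‖ ≤ C := by
    intro f hf
    refine ⟨(eLpNormEssSup f μ).toReal, ENNReal.toReal_nonneg, ?_⟩
    have h1 : eLpNormEssSup f μ ≠ ⊤ := by
      have := hf.2.ne
      rwa [eLpNorm_exponent_top] at this
    filter_upwards [ae_le_eLpNormEssSup (f := f) (μ := μ)] with x hx
    rw [← toReal_enorm]
    exact ENNReal.toReal_mono h1 hx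
  obtain ⟨C₁, hC₁, hb₁⟩ := hb hf₁
  obtain ⟨C₂, hC₂, hb₂⟩ := hb hf₂
  have hb₁' : ∀ m, ∀ᵐ x ∂μ, ‖f₁ (T₁^[m] x)‖ ≤ C₁ := fun m =>
    (hT₁.iterate m).quasiMeasurePreserving.ae hb₁
  have hb₂' : ∀ m, ∀ᵐ x ∂μ, ‖f₂ (T₂^[m] x)‖ ≤ C₂ := fun m =>
    (hT₂.iterate m).quasiMeasurePreserving.ae hb₂
  have hbp : ∀ s : ℕ × ℕ, ∀ᵐ x ∂μ, ‖f₁ (T₁^[s.1] x) * f₂ (T₂^[s.2] x)‖ ≤ C₁ * C₂ := by
    intro s
    filter_upwards [hb₁' s.1, hb₂' s.2] with x h1 h2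
    rw [norm_mul]
    gcongr
  have hP : ∀ s : ℕ × ℕ, MemLp (fun x => f₁ (T₁^[s.1] x) * f₂ (T₂^[s.2] x)) 2 μ := fun s =>
    MemLp.of_bound ((hf₁.1.comp_measurePreserving (hT₁.iterate s.1)).mul
      (hf₂.1.comp_measurePreserving (hT₂.iterate s.2))) (C₁ * C₂) (hbp s)
  have hm₁ : MemLp f₁ 2 μ := hf₁.mono_exponent le_top
  have hm₂ : MemLp f₂ 2 μ := hf₂.mono_exponent le_top
  set U₁ : Lp ℂ 2 μ →ₗᵢ[ℂ] Lp ℂ 2 μ := Lp.compMeasurePreservingₗᵢ ℂ T₁ hT₁ with hU₁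
  set U₂ : Lp ℂ 2 μ →ₗᵢ[ℂ] Lp ℂ 2 μ := Lp.compMeasurePreservingₗᵢ ℂ T₂ hT₂ with hU₂
  have hc₁ : ∀ m, ∀ᵐ x ∂μ, (U₁^[m] (hm₁.toLp f₁)) x = f₁ (T₁^[m] x) :=
    coeFn_iterate hT₁ _ hm₁.coeFn_toLp
  have hc₂ : ∀ m, ∀ᵐ x ∂μ, (U₂^[m] (hm₂.toLp f₂)) x = f₂ (T₂^[m] x) :=
    coeFn_iterate hT₂ _ hm₂.coeFn_toLp
  obtain ⟨L₁, hL₁⟩ := exists_mean_limit U₁ (hm₁.toLp f₁)
  obtain ⟨L₂, hL₂⟩ := exists_mean_limit U₂ (hm₂.toLp f₂)
  have hF := tendsto_weighted hα (w := fun m => U₁^[m] (hm₁.toLp f₁))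
    (fun m => (norm_iterate U₁ _ m).le) hL₁ (tendsto_cw_avg real_smul_Lp U₁ _ hα)
  simp only [smul_zero, add_zero] at hF
  replace hF := tendsto_sub_nhds_zero_iff.1 hF
  have hG := tendsto_shift_avg hL₂
  have hFc : ∀ j : ℕ, ∀ᵐ x ∂μ, ((tot α j : ℝ)⁻¹ • ∑ t ∈ range (j + 1),
      (mult α j t : ℝ) • U₁^[j + 1 + t] (hm₁.toLp f₁)) x = ((tot α j : ℝ)⁻¹ : ℝ) *
        ∑ t ∈ range (j + 1), ((mult α j t : ℝ) : ℂ) * f₁ (T₁^[j + 1 + t] x) := fun j =>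
    coeFn_weighted _ _ _ _ (fun t x => f₁ (T₁^[j + 1 + t] x)) fun t => hc₁ _
  have hGc : ∀ j : ℕ, ∀ᵐ x ∂μ, (((j : ℝ) + 1)⁻¹ • ∑ t ∈ range (j + 1),
      U₂^[j + 1 + t] (hm₂.toLp f₂)) x = (((j : ℝ) + 1)⁻¹ : ℝ) *
        ∑ t ∈ range (j + 1), f₂ (T₂^[j + 1 + t] x) := fun j => by
    have := coeFn_weighted ((j : ℝ) + 1)⁻¹ (range (j + 1)) (fun _ => 1)
      (fun t => U₂^[j + 1 + t] (hm₂.toLp f₂)) (fun t x => f₂ (T₂^[j + 1 + t] x)) fun t => hc₂ _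
    simpa only [one_smul, Complex.ofReal_one, one_mul] using this
  suffices h : ∃ L, Tendsto (blockAvg α fun s => (hP s).toLp _) atTop (𝓝 L) by
    obtain ⟨L, hL⟩ := h
    refine ⟨fun s => (hP s).toLp _, measureUnivNNReal μ ^ (2 : ENNReal).toReal⁻¹ * (C₁ * C₂), L,
      fun s => (hP s).coeFn_toLp, fun s => ?_, hL⟩
    refine Lp.norm_le_of_ae_bound (by positivity) ?_
    filter_upwards [(hP s).coeFn_toLp, hbp s] with x h1 h2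
    rwa [h1]
  refine tendsto_prod (C₁ := C₁) (C₂ := C₂) (fun j => ?_) (fun j => ?_) (fun j => ?_) hF hG
  · have h1 : ∀ t, ∀ᵐ x ∂μ, (∑ t' ∈ range (j + 1), (hP (j + 1 + t, j + 1 + t')).toLp _) x =
        f₁ (T₁^[j + 1 + t] x) * ∑ t' ∈ range (j + 1), f₂ (T₂^[j + 1 + t'] x) := by
      intro t
      have := coeFn_weighted 1 (range (j + 1)) (fun _ => 1)
        (fun t' => (hP (j + 1 + t, j + 1 + t')).toLp _)
        (fun t' x => f₁ (T₁^[j + 1 + t] x) * f₂ (T₂^[j + 1 + t'] x))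
        fun t' => (hP (j + 1 + t, j + 1 + t')).coeFn_toLp
      simpa only [one_smul, Complex.ofReal_one, one_mul, ← mul_sum] using this
    have h2 := coeFn_weighted ((tot α j : ℝ) * ((j : ℝ) + 1))⁻¹ (range (j + 1))
      (fun t => (mult α j t : ℝ))
      (fun t => ∑ t' ∈ range (j + 1), (hP (j + 1 + t, j + 1 + t')).toLp _)
      (fun t x => f₁ (T₁^[j + 1 + t] x) * ∑ t' ∈ range (j + 1), f₂ (T₂^[j + 1 + t'] x)) h1
    filter_upwards [h2, hFc j, hGc j] with x h3 h4 h5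
    rw [h4, h5, blockAvg]
    simp only [← smul_sum]
    rw [h3]
    simp only [← mul_assoc, ← sum_mul]
    push_cast
    rw [mul_inv]
    ring
  · filter_upwards [hFc j, ae_all_iff.2 hb₁'] with x h1 h2
    have ht : (0 : ℝ) < tot α j := by exact_mod_cast tot_pos α j
    rw [h1, norm_mul, Complex.norm_real, norm_inv, Real.norm_natCast, inv_mul_le_iff₀ ht, tot]
    refine (norm_sum_le _ _).trans ?_
    push_cast
    rw [sum_mul]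
    refine sum_le_sum fun t _ => ?_
    rw [norm_mul, Complex.norm_natCast]
    gcongr
    exact h2 _
  · filter_upwards [hGc j, ae_all_iff.2 hb₂'] with x h1 h2
    have ht : (0 : ℝ) < (j : ℝ) + 1 := by positivity
    rw [h1, norm_mul, Complex.norm_real, norm_inv, Real.norm_of_nonneg ht.le, inv_mul_le_iff₀ ht]
    refine (norm_sum_le _ _).trans ?_
    calc _ ≤ ∑ t ∈ range (j + 1), C₂ := sum_le_sum fun t _ => h2 _
      _ = _ := by simp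

theorem exists_good_pair {α : ℝ} (hα : Irrational α) {a : ℕ → ℕ × ℕ}
    (ha : ∀ (v : ℕ × ℕ → Lp ℂ 2 μ) (C : ℝ), (∀ s, ‖v s‖ ≤ C) → ∀ L,
      Tendsto (blockAvg α v) atTop (𝓝 L) →
      Tendsto (fun n : ℕ => (n : ℝ)⁻¹ • ∑ m ∈ range n, v (a m)) atTop (𝓝 L))
    {T₁ T₂ : X → X}
    (hT₁ : MeasurePreserving T₁ μ μ) (hT₂ : MeasurePreserving T₂ μ μ) {f₁ f₂ : X → ℂ}
    (hf₁ : MemLp f₁ ⊤ μ) (hf₂ : MemLp f₂ ⊤ μ) :
    ∃ g : X → ℂ, MemLp g 2 μ ∧ Tendsto (fun N : ℕ => eLpNorm (fun x => (N : ℂ)⁻¹ *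
      ∑ m ∈ range N, f₁ (T₁^[(a m).1] x) * f₂ (T₂^[(a m).2] x) - g x) 2 μ) atTop (𝓝 0) := by
  obtain ⟨v, C, L, h1, h2, h3⟩ := exists_blockAvg_limit hα hT₁ hT₂ hf₁ hf₂
  have h4 := ha v C h2 L h3
  rw [Lp.tendsto_Lp_iff_tendsto_eLpNorm'] at h4
  refine ⟨L, Lp.memLp L, h4.congr fun N => eLpNorm_congr_ae ?_⟩
  have h5 := coeFn_weighted (N : ℝ)⁻¹ (range N) (fun _ => 1) (fun m => v (a m))
    (fun m x => f₁ (T₁^[(a m).1] x) * f₂ (T₂^[(a m).2] x)) fun m => h1 (a m)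
  simp only [one_smul, Complex.ofReal_one, one_mul] at h5
  filter_upwards [h5] with x hx
  rw [Pi.sub_apply, hx]
  push_cast
  rfl

end Pool.Agent.P.MP_2957ea_an
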