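import Mathlib
import Pool.Agent.P.MP_2957ea_an.Defs
import Pool.Agent.P.MP_2957ea_an.VdC

/-!
The Heisenberg nilmanifold, and `(n₁, n₂) ↦ e(α n₁ ^ 2)` as a basic 2-step nilsequence.
-/

namespace Pool.Agent.P.MP_2957ea_an

open Filter Topology

/-- The Heisenberg group. -/
def Heis : Type := Fin 3 → ℝ

namespace Heis

/-- Coordinates. -/
def co (a : Heis) : Fin 3 → ℝ := a

/-- Constructor from coordinates. -/
def mk (x y z : ℝ) : Heis := ![x, y, z]

@[simp] theorem mk_zero (x y z : ℝ) : (mk x y z).co 0 = x := rfl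
@[simp] theorem mk_one (x y z : ℝ) : (mk x y z).co 1 = y := rfl
@[simp] theorem mk_two (x y z : ℝ) : (mk x y z).co 2 = z := rfl

theorem ext' {a b : Heis} (h0 : a.co 0 = b.co 0) (h1 : a.co 1 = b.co 1) (h2 : a.co 2 = b.co 2) :
    a = b := by
  funext i
  fin_cases i
  exacts [h0, h1, h2]

instance : Mul Heis :=
  ⟨fun a b => mk (a.co 0 + b.co 0) (a.co 1 + b.co 1) (a.co 2 + b.co 2 + a.co 0 * b.co 1)⟩
instance : One Heis := ⟨mk 0 0 0⟩
instance : Inv Heis := ⟨fun a => mk (-a.co 0) (-a.co 1) (-a.co 2 + a.co 0 * a.co 1)⟩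

@[simp] theorem mul_zero' (a b : Heis) : (a * b).co 0 = a.co 0 + b.co 0 := rfl
@[simp] theorem mul_one' (a b : Heis) : (a * b).co 1 = a.co 1 + b.co 1 := rfl
@[simp] theorem mul_two' (a b : Heis) : (a * b).co 2 = a.co 2 + b.co 2 + a.co 0 * b.co 1 := rfl
@[simp] theorem one_zero' : (1 : Heis).co 0 = 0 := rfl
@[simp] theorem one_one' : (1 : Heis).co 1 = 0 := rfl
@[simp] theorem one_two' : (1 : Heis).co 2 = 0 := rfl
@[simp] theorem inv_zero' (a : Heis) : (a⁻¹).co 0 = -a.co 0 := rfl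
@[simp] theorem inv_one' (a : Heis) : (a⁻¹).co 1 = -a.co 1 := rfl
@[simp] theorem inv_two' (a : Heis) : (a⁻¹).co 2 = -a.co 2 + a.co 0 * a.co 1 := rfl

instance : Group Heis :=
  Group.ofLeftAxioms
    (fun a b c => ext' (by simp; ring) (by simp; ring) (by simp; ring))
    (fun a => ext' (by simp) (by simp) (by simp))
    (fun a => ext' (by simp) (by simp) (by simp))

instance : TopologicalSpace Heis := inferInstanceAs (TopologicalSpace (Fin 3 → ℝ))
instance : T2Space Heis := inferInstanceAs (T2Space (Fin 3 → ℝ))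
instance : SecondCountableTopology Heis := inferInstanceAs (SecondCountableTopology (Fin 3 → ℝ))
instance : SimplyConnectedSpace Heis := inferInstanceAs (SimplyConnectedSpace (Fin 3 → ℝ))
instance : ChartedSpace (Fin 3 → ℝ) Heis := inferInstanceAs (ChartedSpace (Fin 3 → ℝ) (Fin 3 → ℝ))
instance : IsManifold (modelWithCornersSelf ℝ (Fin 3 → ℝ)) ⊤ Heis :=
  inferInstanceAs (IsManifold (modelWithCornersSelf ℝ (Fin 3 → ℝ)) ⊤ (Fin 3 → ℝ))

theorem contDiff_mul' : ContDiff ℝ ⊤ fun p : (Fin 3 → ℝ) × (Fin 3 → ℝ) =>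
    (![p.1 0 + p.2 0, p.1 1 + p.2 1, p.1 2 + p.2 2 + p.1 0 * p.2 1] : Fin 3 → ℝ) := by
  rw [contDiff_pi]
  intro i
  fin_cases i
  · change ContDiff ℝ ⊤ fun p : (Fin 3 → ℝ) × (Fin 3 → ℝ) => p.1 0 + p.2 0
    fun_prop
  · change ContDiff ℝ ⊤ fun p : (Fin 3 → ℝ) × (Fin 3 → ℝ) => p.1 1 + p.2 1
    fun_prop
  · change ContDiff ℝ ⊤ fun p : (Fin 3 → ℝ) × (Fin 3 → ℝ) => p.1 2 + p.2 2 + p.1 0 * p.2 1
    fun_prop

theorem contDiff_inv' : ContDiff ℝ ⊤ fun p : Fin 3 → ℝ =>
    (![-p 0, -p 1, -p 2 + p 0 * p 1] : Fin 3 → ℝ) := by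
  rw [contDiff_pi]
  intro i
  fin_cases i
  · change ContDiff ℝ ⊤ fun p : Fin 3 → ℝ => -p 0
    fun_prop
  · change ContDiff ℝ ⊤ fun p : Fin 3 → ℝ => -p 1
    fun_prop
  · change ContDiff ℝ ⊤ fun p : Fin 3 → ℝ => -p 2 + p 0 * p 1
    fun_prop

instance : LieGroup (modelWithCornersSelf ℝ (Fin 3 → ℝ)) ⊤ Heis where
  contMDiff_mul := by
    have h := contDiff_mul'.contMDiff
    rw [modelWithCornersSelf_prod, ← chartedSpaceSelf_prod] at h
    exact h
  contMDiff_inv := contDiff_inv'.contMDiff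

theorem continuous_co (i : Fin 3) : Continuous fun a : Heis => a.co i :=
  continuous_apply (A := fun _ : Fin 3 => ℝ) i

/-- The integer points. -/
def lattice : Subgroup Heis where
  carrier := {a | ∀ i, ∃ n : ℤ, a.co i = n}
  mul_mem' := by
    intro a b ha hb i
    obtain ⟨a0, h0⟩ := ha 0
    obtain ⟨a1, h1⟩ := ha 1
    obtain ⟨a2, h2⟩ := ha 2
    obtain ⟨b0, g0⟩ := hb 0
    obtain ⟨b1, g1⟩ := hb 1
    obtain ⟨b2, g2⟩ := hb 2
    fin_cases i
    · exact ⟨a0 + b0, by simp [h0, g0]⟩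
    · exact ⟨a1 + b1, by simp [h1, g1]⟩
    · exact ⟨a2 + b2 + a0 * b1, by simp [h0, h2, g1, g2]⟩
  one_mem' := by
    intro i
    fin_cases i <;> exact ⟨0, by simp⟩
  inv_mem' := by
    intro a ha i
    obtain ⟨a0, h0⟩ := ha 0
    obtain ⟨a1, h1⟩ := ha 1
    obtain ⟨a2, h2⟩ := ha 2
    fin_cases i
    · exact ⟨-a0, by simp [h0]⟩
    · exact ⟨-a1, by simp [h1]⟩
    · exact ⟨-a2 + a0 * a1, by simp [h0, h1, h2]⟩

theorem discrete_lattice : DiscreteTopology lattice := by
  rw [discreteTopology_iff_isOpen_singleton]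
  intro a
  have h1 : IsOpen {b : lattice | ∀ i, |(b : Heis).co i - (a : Heis).co i| < 1} := by
    rw [Set.ofPred_forall]
    refine isOpen_iInter_of_finite fun i => isOpen_lt ?_ continuous_const
    exact (((continuous_co i).comp continuous_subtype_val).sub continuous_const).abs
  convert h1 using 1
  ext b
  constructor
  · rintro rfl i
    simp
  · intro hb
    have key : ∀ i, (b : Heis).co i = (a : Heis).co i := by
      intro i
      obtain ⟨m, hm⟩ := a.2 i
      obtain ⟨n, hn⟩ := b.2 i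
      have h2 := hb i
      rw [hm, hn] at h2 ⊢
      have h3 : |n - m| < 1 := by exact_mod_cast h2
      have h4 : n = m := by
        have := abs_lt.1 h3
        omega
      rw [h4]
    exact Subtype.ext (ext' (key 0) (key 1) (key 2))

theorem compact_quotient : CompactSpace (Heis ⧸ lattice) := by
  have h1 : IsCompact {a : Heis | a.co ∈ Set.Icc (0 : Fin 3 → ℝ) 1} :=
    isCompact_Icc (α := Fin 3 → ℝ) (a := 0) (b := 1)
  have h2 : IsCompact ((fun a : Heis => (a : Heis ⧸ lattice)) ''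
      {a : Heis | a.co ∈ Set.Icc (0 : Fin 3 → ℝ) 1}) :=
    h1.image QuotientGroup.continuous_mk
  refine ⟨h2.of_isClosed_subset isClosed_univ ?_⟩
  intro q _
  obtain ⟨g, rfl⟩ := QuotientGroup.mk_surjective q
  set γ : Heis := mk (-⌊g.co 0⌋) (-⌊g.co 1⌋) (-⌊g.co 2 - g.co 0 * ⌊g.co 1⌋⌋) with hγ
  have hmem : γ ∈ lattice := by
    intro i
    fin_cases i
    · exact ⟨-⌊g.co 0⌋, by simp [hγ]⟩
    · exact ⟨-⌊g.co 1⌋, by simp [hγ]⟩
    · exact ⟨-⌊g.co 2 - g.co 0 * ⌊g.co 1⌋⌋, by simp [hγ]⟩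
  have e0 : (g * γ).co 0 = Int.fract (g.co 0) := by
    rw [Int.fract, hγ, mul_zero', mk_zero]; ring
  have e1 : (g * γ).co 1 = Int.fract (g.co 1) := by
    rw [Int.fract, hγ, mul_one', mk_one]; ring
  have e2 : (g * γ).co 2 = Int.fract (g.co 2 - g.co 0 * ⌊g.co 1⌋) := by
    rw [Int.fract, hγ, mul_two', mk_two, mk_one]; ring
  refine ⟨g * γ, ⟨fun i => ?_, fun i => ?_⟩, QuotientGroup.mk_mul_of_mem g hmem⟩
  · change 0 ≤ (g * γ).co i
    fin_cases i
    · exact e0 ▸ Int.fract_nonneg _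
    · exact e1 ▸ Int.fract_nonneg _
    · exact e2 ▸ Int.fract_nonneg _
  · change (g * γ).co i ≤ 1
    fin_cases i
    · exact e0 ▸ (Int.fract_lt_one _).le
    · exact e1 ▸ (Int.fract_lt_one _).le
    · exact e2 ▸ (Int.fract_lt_one _).le

theorem two_step : (⊤ : Subgroup Heis).lowerCentralSeries 2 = ⊥ := by
  have h1 : ⁅(⊤ : Subgroup Heis), (⊤ : Subgroup Heis)⁆ ≤ Subgroup.center Heis := by
    rw [Subgroup.commutator_le]
    intro a _ b _
    rw [Subgroup.mem_center_iff]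
    intro c
    refine ext' ?_ ?_ ?_ <;> simp [commutatorElement_def] <;> ring
  change ⁅⁅(⊤ : Subgroup Heis), (⊤ : Subgroup Heis)⁆, (⊤ : Subgroup Heis)⁆ = ⊥
  rw [eq_bot_iff, Subgroup.commutator_le]
  intro a ha b _
  rw [Subgroup.mem_bot, commutatorElement_eq_one_iff_mul_comm]
  exact (Subgroup.mem_center_iff.1 (h1 ha) b).symm

/-- The test function on the group. -/
noncomputable def fn (a : Heis) : ℂ :=
  ((4 * Int.fract (a.co 1) * (1 - Int.fract (a.co 1)) : ℝ) : ℂ) *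
    ee (a.co 2 - (a.co 1 - Int.fract (a.co 1)) * a.co 0)

theorem continuous_ee : Continuous ee := by
  unfold ee
  fun_prop

theorem continuous_fn : Continuous fn := by
  have h0 := continuous_co 0
  have h1 := continuous_co 1
  have h2 := continuous_co 2
  have h3 : Continuous (Function.uncurry fun (a : Heis) (t : ℝ) =>
      ((4 * t * (1 - t) : ℝ) : ℂ) * ee (a.co 2 - (a.co 1 - t) * a.co 0)) := by
    refine Continuous.mul (Complex.continuous_ofReal.comp (by fun_prop)) (continuous_ee.comp ?_)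
    exact (h2.comp continuous_fst).sub
      (((h1.comp continuous_fst).sub continuous_snd).mul (h0.comp continuous_fst))
  have h4 := ContinuousOn.comp_fract' h3.continuousOn (fun a => by simp)
  exact h4.comp (continuous_id.prodMk h1)

theorem fn_mul_lattice (g : Heis) {γ : Heis} (hγ : γ ∈ lattice) : fn (g * γ) = fn g := by
  obtain ⟨a, ha⟩ := hγ 0
  obtain ⟨b, hb⟩ := hγ 1
  obtain ⟨c, hc⟩ := hγ 2
  simp only [fn, mul_zero', mul_one', mul_two', ha, hb, hc, Int.fract_add_intCast]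
  congr 1
  have h1 : g.co 2 + c + g.co 0 * b - (g.co 1 + b - Int.fract (g.co 1)) * (g.co 0 + a) =
      g.co 2 - (g.co 1 - Int.fract (g.co 1)) * g.co 0 + ((c - (⌊g.co 1⌋ + b) * a : ℤ) : ℝ) := by
    rw [Int.fract]
    push_cast
    ring
  rw [h1, ee_add, ee_int, mul_one]

/-- The test function on the nilmanifold. -/
noncomputable def fq : Heis ⧸ lattice → ℂ :=
  Quotient.lift fn fun a b hab => by
    have h : a⁻¹ * b ∈ lattice := QuotientGroup.leftRel_apply.1 hab
    rw [← fn_mul_lattice a h, mul_inv_cancel_left]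

theorem continuous_fq : Continuous fq := continuous_fn.quotient_lift _

theorem zpow_eq (β : ℝ) (n : ℤ) : (mk β 1 0) ^ n = mk (n * β) n (n * (n - 1) / 2 * β) := by
  induction n using Int.induction_on with
  | zero => exact ext' (by simp) (by simp) (by simp)
  | succ n ih =>
    rw [zpow_add_one, ih]
    refine ext' ?_ ?_ ?_ <;> simp <;> ring
  | pred n ih =>
    rw [zpow_sub_one, ih]
    refine ext' ?_ ?_ ?_ <;> simp <;> ring

end Heis

theorem isNil_quadratic (α : ℝ) :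
    IsContinuousBasicNilsequence 2 2 fun n => ee (α * (n 0 : ℝ) ^ 2) := by
  refine ⟨3, Heis, inferInstance, inferInstance, inferInstance, inferInstance, inferInstance,
    inferInstance, inferInstance, Heis.lattice, ![Heis.mk (-2 * α) 1 0, 1],
    ((Heis.mk 0 (1 / 2) 0 : Heis) : Heis ⧸ Heis.lattice), Heis.fq, Heis.two_step,
    Heis.discrete_lattice, Heis.compact_quotient, ?_, Heis.continuous_fq, fun n => ?_⟩
  · intro i j
    fin_cases i <;> fin_cases j <;> simp
  · have h1 : (List.ofFn fun i => (![Heis.mk (-2 * α) 1 0, 1] : Fin 2 → Heis) i ^ n i).prod =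
        Heis.mk (-2 * α) 1 0 ^ n 0 := by
      simp [List.ofFn_succ]
    rw [h1, Heis.zpow_eq]
    change _ = Heis.fn (_ * _)
    have h2 : Int.fract ((n 0 : ℝ) + 1 / 2) = 1 / 2 := by
      rw [Int.fract_intCast_add, Int.fract_eq_self.2 ⟨by norm_num, by norm_num⟩]
    simp only [Heis.fn, Heis.mul_zero', Heis.mul_one', Heis.mul_two', Heis.mk_zero, Heis.mk_one,
      Heis.mk_two, h2]
    rw [show (4 * (1 / 2) * (1 - 1 / 2) : ℝ) = 1 by norm_num, Complex.ofReal_one, one_mul]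
    congr 1
    ring

end Pool.Agent.P.MP_2957ea_an
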